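import Pool.Agent.Helper45.RT.Stmts3

/-!
Project RTwo (MP_47dd75_co): row LEVEL, congruence lemmas.
-/

set_option autoImplicit false

namespace RTwo

namespace H50

open Finset

/-- equality of colourings on `n` vertices -/
def EqC (n : ℕ) (c c' : Col) : Prop := ∀ i j, i < n → j < n → c i j = c' i j

theorem EqC.code {n : ℕ} {c c' : Col} (h : EqC n c c') : code n c = code n c' := by
  unfold RTwo.code
  refine Finset.sum_congr rfl fun i hi => Finset.sum_congr rfl fun j hj => ?_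
  rw [h i j (mem_range.1 hi) (mem_range.1 hj)]

theorem EqC.nA {n : ℕ} {c c' : Col} (h : EqC n c c') {v : ℕ} (hv : v < n) :
    nA n c v = nA n c' v := by
  unfold RTwo.nA
  congr 1
  refine Finset.filter_congr fun w hw => ?_
  rw [h v w hv (mem_range.1 hw)]

theorem EqC.nB {n : ℕ} {c c' : Col} (h : EqC n c c') {v : ℕ} (hv : v < n) :
    nB n c v = nB n c' v := by
  unfold RTwo.nB
  congr 1
  refine Finset.filter_congr fun w hw => ?_
  rw [h v w hv (mem_range.1 hw)]

theorem EqC.dgr {n : ℕ} {c c' : Col} (h : EqC n c c') {v : ℕ} (hv : v < n) :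
    dgr n c v = dgr n c' v := by
  unfold RTwo.dgr
  rw [h.nA hv, h.nB hv]

theorem EqC.totA {n : ℕ} {c c' : Col} (h : EqC n c c') : totA n c = totA n c' :=
  Finset.sum_congr rfl fun _ hv => h.nA (mem_range.1 hv)

theorem EqC.totB {n : ℕ} {c c' : Col} (h : EqC n c c') : totB n c = totB n c' :=
  Finset.sum_congr rfl fun _ hv => h.nB (mem_range.1 hv)

theorem EqC.tot {n : ℕ} {c c' : Col} (h : EqC n c c') : tot n c = tot n c' := by
  unfold RTwo.tot
  rw [h.totA, h.totB]

theorem EqC.rl {I : ℝ → ℝ → Prop} {n : ℕ} {c c' : Col} (h : EqC n c c') (hR : Rl I n c) :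
    Rl I n c' := by
  obtain ⟨p, a, b, h1, h2, h3, h4, h5⟩ := hR
  refine ⟨p, a, b, h1, h2, h3, h4, fun i j hi hj => ?_⟩
  rw [← h i j hi hj]
  exact h5 i j hi hj

theorem EqC.symm {n : ℕ} {c c' : Col} (h : EqC n c c') : EqC n c' c :=
  fun i j hi hj => (h i j hi hj).symm

theorem EqC.dcol (hD : ST_DSG) {n : ℕ} (hn : 0 < n) {c c' : Col} (h : EqC n c c') (r f : ℕ) :
    EqC n (dcol n r f c) (dcol n r f c') :=
  fun i j hi hj => h _ _ ((hD n hn).1 r f i hi) ((hD n hn).1 r f j hj)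

theorem EqC.inL (hD : ST_DSG) {n : ℕ} (hn : 0 < n) {L : List ℕ} {c c' : Col} (h : EqC n c c')
    (hI : InL n L c) : InL n L c' := by
  obtain ⟨idx, r, f, hr, h1⟩ := hI
  exact ⟨idx, r, f, hr, by rw [h1, (h.dcol hD hn r f).code]⟩

theorem inL_dcol (hD : ST_DSG) {n : ℕ} (hn : 0 < n) {L : List ℕ} {c : Col} {r f : ℕ}
    (hI : InL n L (dcol n r f c)) : InL n L c := by
  obtain ⟨idx, r', f', _, h1⟩ := hI
  obtain ⟨r'', f'', hr'', h6⟩ := (hD n hn).2.2.1 r f r' f'
  refine ⟨idx, r'', f'', hr'', ?_⟩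
  rw [h1]
  refine EqC.code fun i j hi hj => ?_
  show c (dsg n r f (dsg n r' f' i)) (dsg n r f (dsg n r' f' j)) =
    c (dsg n r'' f'' i) (dsg n r'' f'' j)
  rw [h6 i hi, h6 j hj]

theorem code_ne_zero {n : ℕ} {c : Col} (h : 0 < tot n c) : code n c ≠ 0 := by
  intro h0
  have h1 : ∀ i, i < n → ∀ j, j < n → c i j = 0 := by
    intro i hi j hj
    unfold RTwo.code at h0
    rw [Finset.sum_eq_zero_iff] at h0
    have h2 := h0 i (mem_range.2 hi)
    rw [Finset.sum_eq_zero_iff] at h2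
    have h3 := h2 j (mem_range.2 hj)
    rcases Nat.mul_eq_zero.1 h3 with h4 | h4
    · exact h4
    · exact absurd h4 (by positivity)
  have h2 : tot n c = 0 := by
    unfold RTwo.tot RTwo.totA RTwo.totB
    have h3 : ∑ v ∈ range n, nA n c v = 0 := by
      refine Finset.sum_eq_zero fun v hv => ?_
      unfold RTwo.nA
      rw [Finset.card_eq_zero, Finset.filter_eq_empty_iff]
      intro w hw
      rw [h1 v (mem_range.1 hv) w (mem_range.1 hw)]
      decide
    have h4 : ∑ v ∈ range n, nB n c v = 0 := by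
      refine Finset.sum_eq_zero fun v hv => ?_
      unfold RTwo.nB
      rw [Finset.card_eq_zero, Finset.filter_eq_empty_iff]
      intro w hw
      rw [h1 v (mem_range.1 hv) w (mem_range.1 hw)]
      decide
    rw [h3, h4]
  omega

end H50

open H50

/-- row LEVEL -/
theorem st_LEVEL (hT : ST_TAU) (hD : ST_DSG) (hC : ST_DCOL) (hR : ST_RLD) (hE : ST_DEL) :
    ST_LEVEL := by
  intro I k t P L c hk hk9 hStep hS hRl ht hcap r hr hmin htot hInP
  have hk1 : 0 < k + 1 := Nat.succ_pos k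
  have hk0 : 0 < k := by omega
  obtain ⟨s1, a1, b1, -⟩ := hC (k + 1) r 0 c hk1 hS
  have hRl1 := hR I (k + 1) r 0 c hk1 hRl
  set c1 := dcol (k + 1) r 0 c with hc1
  obtain ⟨s2, -, -, -, -, -⟩ := hE k c1 s1
  obtain ⟨idx, r1, f1, hr1, hidx⟩ := hInP
  obtain ⟨c', g, hs', hg, hbase, hcase⟩ := hT k r1 f1 c1 hk0 hr1 s1
  obtain ⟨s3, a3, b3, -⟩ := hC k r1 f1 c1 hk0 s2
  have hne : get P idx ≠ 0 := by
    rw [hidx]
    apply code_ne_zero
    unfold RTwo.tot
    rw [a3, b3]
    exact htot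
  have hst := hStep idx hne
  -- in both cases `c'` is a dihedral image of `c1`
  have key : ∃ r' f', EqC (k + 1) (dcol (k + 1) r' f' c1) c' ∧
      dsg (k + 1) r' f' k = k := by
    rcases hcase with h | h
    · refine ⟨0, 0, fun i j hi hj => ?_, ?_⟩
      · rw [h i j (by omega) (by omega)]
        show c1 (dsg (k + 1) 0 0 i) (dsg (k + 1) 0 0 j) = c1 i j
        have e1 : dsg (k + 1) 0 0 i = i := by
          unfold dsg
          rw [if_pos rfl, Nat.add_zero, Nat.mod_eq_of_lt hi]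
        have e2 : dsg (k + 1) 0 0 j = j := by
          unfold dsg
          rw [if_pos rfl, Nat.add_zero, Nat.mod_eq_of_lt hj]
        rw [e1, e2]
      · unfold dsg
        rw [if_pos rfl, Nat.add_zero, Nat.mod_eq_of_lt (Nat.lt_succ_self k)]
    · refine ⟨1, 1, fun i j hi hj => (h i j (by omega) (by omega)).symm, ?_⟩
      unfold dsg
      rw [if_neg one_ne_zero, Nat.mod_self]
      omega
  obtain ⟨r', f', hEq, hfix⟩ := key
  obtain ⟨s4, a4, b4, d4⟩ := hC (k + 1) r' f' c1 hk1 s1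
  have hRl' : Rl I (k + 1) c' := hEq.rl (hR I (k + 1) r' f' c1 hk1 hRl1)
  have hA : totA (k + 1) c' = totA (k + 1) c := by rw [← hEq.totA, a4, a1]
  have hB : totB (k + 1) c' = totB (k + 1) c := by rw [← hEq.totB, b4, b1]
  have hres := hst c' (dcol k r1 f1 c1) g hs' hRl' s3 hidx hg hbase
    (by unfold RTwo.tot at ht ⊢; rw [hA, hB]; exact ht) (by rw [hA]; exact hcap.1)
    (by rw [hB]; exact hcap.2) (by
      intro v hv
      rw [← hEq.dgr (Nat.lt_succ_self k), ← hEq.dgr (v := v) (by omega), d4 k (Nat.lt_succ_self k),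
        d4 v (by omega), hfix]
      refine hmin _ ?_
      have := (hD (k + 1) hk1).1 r' f' v (by omega)
      omega)
  exact inL_dcol hD hk1 (inL_dcol hD hk1 (hEq.symm.inL hD hk1 hres))

end RTwo
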