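import Pool.Agent.Helper50.RTwo.LEVEL

/-!
Project RTwo (MP_47dd75_co): row LEVELAV.
-/

set_option autoImplicit false

namespace RTwo

/-- row LEVELAV -/
theorem st_LEVELAV (hL : ST_LEVEL) (hM : ST_MIN) (hE : ST_DEL) (hC : ST_DCOL) (hR : ST_RLD) :
    ST_LEVELAV := by
  intro I k t t' P L hk hk9 ht' hStep hav hprev c hS hRl ht hcap
  obtain ⟨r, hr, hmin, hdeg⟩ := hM k c hS
  obtain ⟨s1, a1, b1, -⟩ := hC (k + 1) r 0 c (Nat.succ_pos k) hS
  have hRl1 := hR I (k + 1) r 0 c (Nat.succ_pos k) hRl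
  obtain ⟨s2, t2, a2, b2, -⟩ := hE k (dcol (k + 1) r 0 c) s1
  have e1 : tot (k + 1) (dcol (k + 1) r 0 c) = tot (k + 1) c := by
    unfold tot
    rw [a1, b1]
  rw [e1] at t2
  have h1 : dgr (k + 1) (dcol (k + 1) r 0 c) k ≤ tot (k + 1) c / (k + 1) := by
    rw [Nat.le_div_iff_mul_le (Nat.succ_pos k), mul_comm]
    exact hdeg
  have h2 := hav _ ht
  have h3 : 2 * t' ≤ tot k (dcol (k + 1) r 0 c) := by omega
  have h4 : Rl I k (dcol (k + 1) r 0 c) := by
    obtain ⟨p, a, b, g1, g2, g3, g4, g5⟩ := hRl1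
    exact ⟨p, a, b, fun i j l hi hj hl => g1 i j l hi hj (by omega), g2, g3, g4,
      fun i j hi hj => g5 i j (by omega) (by omega)⟩
  have h5 : Cap k (dcol (k + 1) r 0 c) := by
    have := hcap.1
    have := hcap.2
    exact ⟨by omega, by omega⟩
  exact hL I k t P L c hk hk9 hStep hS hRl ht hcap r hr hmin (by omega)
    (hprev _ s2 h4 h3 h5)

end RTwo
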