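import Pool.Agent.Helper45.RT.Stmts3

/-!
Project RTwo (MP_47dd75_co): row SEL.
-/

set_option autoImplicit false

namespace RTwo

namespace H50

open Finset Pool.Agent.Helper14.Poly

/-- the ordered pair -/
def srt (i j : ℕ) : ℕ × ℕ := (min i j, max i j)

theorem srt_comm (i j : ℕ) : srt i j = srt j i := by
  unfold srt
  rw [min_comm, max_comm]

theorem card_sym {n : ℕ} {A : Finset (ℕ × ℕ)} (hA : ∀ z ∈ A, z.1 < z.2 ∧ z.2 < n) :
    (((range n) ×ˢ (range n)).filter (fun z => srt z.1 z.2 ∈ A)).card = 2 * A.card := by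
  have h1 : ((range n) ×ˢ (range n)).filter (fun z => srt z.1 z.2 ∈ A) =
      A ∪ A.image Prod.swap := by
    ext ⟨i, j⟩
    rw [Finset.mem_filter, Finset.mem_product, Finset.mem_union, Finset.mem_image, mem_range,
      mem_range]
    constructor
    · rintro ⟨-, h⟩
      rcases le_total i j with hij | hij
      · left
        unfold srt at h
        rwa [min_eq_left hij, max_eq_right hij] at h
      · right
        unfold srt at h
        rw [min_eq_right hij, max_eq_left hij] at h
        exact ⟨(j, i), h, rfl⟩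
    · rintro (h | ⟨⟨a, b⟩, h, he⟩)
      · obtain ⟨h2, h3⟩ := hA _ h
        dsimp only at h2 h3
        refine ⟨⟨by dsimp only; omega, by dsimp only; omega⟩, ?_⟩
        unfold srt
        dsimp only
        rwa [min_eq_left h2.le, max_eq_right h2.le]
      · obtain ⟨h2, h3⟩ := hA _ h
        dsimp only at h2 h3
        rw [Prod.swap_prod_mk, Prod.mk.injEq] at he
        obtain ⟨rfl, rfl⟩ := he
        refine ⟨⟨by dsimp only; omega, by dsimp only; omega⟩, ?_⟩
        unfold srt
        dsimp only
        rwa [min_eq_right h2.le, max_eq_left h2.le]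
  rw [h1, Finset.card_union_of_disjoint, Finset.card_image_of_injective _ Prod.swap_injective]
  · ring
  · rw [Finset.disjoint_left]
    rintro ⟨i, j⟩ h h'
    rw [Finset.mem_image] at h'
    obtain ⟨⟨a, b⟩, h2, he⟩ := h'
    rw [Prod.swap_prod_mk, Prod.mk.injEq] at he
    obtain ⟨rfl, rfl⟩ := he
    have h3 := (hA _ h).1
    have h4 := (hA _ h2).1
    dsimp only at h3 h4
    omega

/-- the colouring given by two sets of pairs -/
noncomputable def colAB (A B : Finset (ℕ × ℕ)) : Col := fun i j =>
  open Classical in if srt i j ∈ A then 1 else if srt i j ∈ B then 2 else 0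

theorem colAB_symC {n : ℕ} {A B : Finset (ℕ × ℕ)} (hA : ∀ z ∈ A, z.1 < z.2 ∧ z.2 < n)
    (hB : ∀ z ∈ B, z.1 < z.2 ∧ z.2 < n) : SymC n (colAB A B) := by
  intro i j _ _
  refine ⟨?_, ?_, ?_⟩
  · unfold colAB
    rw [srt_comm]
  · unfold colAB
    rw [if_neg, if_neg]
    · intro h
      have := (hB _ h).1
      unfold srt at this
      simp at this
    · intro h
      have := (hA _ h).1
      unfold srt at this
      simp at this
  · unfold colAB
    split_ifs <;> omega

theorem colAB_one {A B : Finset (ℕ × ℕ)} {i j : ℕ} : colAB A B i j = 1 ↔ srt i j ∈ A := by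
  unfold colAB
  split_ifs with h1 h2 <;> simp [h1]

theorem colAB_two {A B : Finset (ℕ × ℕ)} (hAB : Disjoint A B) {i j : ℕ} :
    colAB A B i j = 2 ↔ srt i j ∈ B := by
  unfold colAB
  split_ifs with h1 h2
  · constructor
    · intro h
      omega
    · intro h
      exact absurd h (Finset.disjoint_left.1 hAB h1)
  · simp [h2]
  · simp [h2]

theorem sum_card (n : ℕ) (P : ℕ → ℕ → Prop) [∀ v w, Decidable (P v w)] :
    ∑ v ∈ range n, ((range n).filter (fun w => P v w)).card =
      (((range n) ×ˢ (range n)).filter (fun z => P z.1 z.2)).card := by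
  rw [Finset.card_filter, Finset.sum_product]
  exact Finset.sum_congr rfl fun v _ => Finset.card_filter _ _

theorem dist_plane (x y : Plane) :
    dist (⟨x 0, x 1⟩ : ℂ) ⟨y 0, y 1⟩ = dist x y := by
  rw [Complex.dist_eq_re_im, EuclideanSpace.dist_eq, Fin.sum_univ_two, Real.dist_eq, Real.dist_eq,
    sq_abs, sq_abs]

/-- pairs of indices at distance `d` -/
noncomputable def Ud (n : ℕ) (e : ℕ → Plane) (d : ℝ) : Finset (ℕ × ℕ) :=
  open Classical in ((range n) ×ˢ (range n)).filter
    (fun z => z.1 < z.2 ∧ dist (e z.1) (e z.2) = d)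

theorem mem_Ud {n : ℕ} {e : ℕ → Plane} {d : ℝ} {z : ℕ × ℕ} :
    z ∈ Ud n e d ↔ z.1 < z.2 ∧ z.2 < n ∧ dist (e z.1) (e z.2) = d := by
  unfold Ud
  rw [Finset.mem_filter, Finset.mem_product, mem_range, mem_range]
  constructor
  · rintro ⟨⟨_, h2⟩, h3, h4⟩
    exact ⟨h3, h2, h4⟩
  · rintro ⟨h1, h2, h3⟩
    exact ⟨⟨by omega, h2⟩, h1, h3⟩

theorem mult_le_Ud {n : ℕ} {C : Finset Plane} {e : ℕ → Plane} (hcard : C.card = n)
    (he : ∀ i, i < n → e i ∈ C) (hinj : ∀ i j, i < n → j < n → e i = e j → i = j) (d : ℝ) :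
    mult C d ≤ (Ud n e d).card := by
  classical
  have himg : (range n).image e = C := by
    refine Finset.eq_of_subset_of_card_le ?_ ?_
    · intro x hx
      rw [Finset.mem_image] at hx
      obtain ⟨i, hi, rfl⟩ := hx
      exact he i (mem_range.1 hi)
    · rw [Finset.card_image_of_injOn, Finset.card_range, hcard]
      intro i hi j hj h
      exact hinj i j (mem_range.1 hi) (mem_range.1 hj) h
  have h1 := card_sym (n := n) (A := Ud n e d) fun z hz => by
    rw [mem_Ud] at hz
    exact ⟨hz.1, hz.2.1⟩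
  have h2 : C.offDiag.filter (fun z => dist z.1 z.2 = d) ⊆
      (((range n) ×ˢ (range n)).filter (fun z => srt z.1 z.2 ∈ Ud n e d)).image
        (fun z => (e z.1, e z.2)) := by
    rintro ⟨x, y⟩ hz
    rw [Finset.mem_filter, Finset.mem_offDiag] at hz
    obtain ⟨⟨hx, hy, hne⟩, hd⟩ := hz
    dsimp only at hx hy hne hd
    rw [← himg, Finset.mem_image] at hx hy
    obtain ⟨i, hi, rfl⟩ := hx
    obtain ⟨j, hj, rfl⟩ := hy
    rw [Finset.mem_image]
    refine ⟨(i, j), ?_, rfl⟩
    rw [Finset.mem_filter, Finset.mem_product]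
    refine ⟨⟨hi, hj⟩, ?_⟩
    rw [mem_range] at hi hj
    rw [mem_Ud]
    unfold srt
    dsimp only
    rcases lt_trichotomy i j with h | h | h
    · rw [min_eq_left h.le, max_eq_right h.le]
      exact ⟨h, hj, hd⟩
    · exact absurd (congrArg e h) hne
    · rw [min_eq_right h.le, max_eq_left h.le]
      exact ⟨h, hi, by rw [dist_comm]; exact hd⟩
  have h3 := (Finset.card_le_card h2).trans Finset.card_image_le
  rw [h1] at h3
  unfold mult
  refine Nat.div_le_of_le_mul (le_trans (le_of_eq ?_) h3)
  congr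

end H50

open H50 Finset Pool.Agent.Helper14.Poly

/-- row SEL -/
theorem st_SEL (hO : ST_ORD) : ST_SEL := by
  classical
  intro n m C d₁ d₂ hm hC hd h1 h2
  obtain ⟨e, he, hinj, hpos⟩ := hO n C hC
  have k1 := h1.trans (mult_le_Ud hC.1 he hinj d₁)
  have k2 := h2.trans (mult_le_Ud hC.1 he hinj d₂)
  obtain ⟨A, hA, cA⟩ := Finset.exists_subset_card_eq k1
  obtain ⟨B, hB, cB⟩ := Finset.exists_subset_card_eq k2
  have hA' : ∀ z ∈ A, z.1 < z.2 ∧ z.2 < n := fun z hz => by
    have := mem_Ud.1 (hA hz)
    exact ⟨this.1, this.2.1⟩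
  have hB' : ∀ z ∈ B, z.1 < z.2 ∧ z.2 < n := fun z hz => by
    have := mem_Ud.1 (hB hz)
    exact ⟨this.1, this.2.1⟩
  have hAB : Disjoint A B := by
    rw [Finset.disjoint_left]
    intro z hz hz'
    have e1 := (mem_Ud.1 (hA hz)).2.2
    have e2 := (mem_Ud.1 (hB hz')).2.2
    rw [e1] at e2
    exact hd.ne e2
  have hdist : ∀ i j (D : ℝ), srt i j ∈ Ud n e D → dist (e i) (e j) = D := by
    intro i j D h
    have h3 := (mem_Ud.1 h).2.2
    unfold srt at h3
    rcases le_total i j with hij | hij
    · rwa [min_eq_left hij, max_eq_right hij] at h3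
    · rw [min_eq_right hij, max_eq_left hij, dist_comm] at h3
      exact h3
  refine ⟨fun i => ⟨e i 0, e i 1⟩, colAB A B, hpos, ?_, colAB_symC hA' hB', ?_, ?_, ?_⟩
  · have hne : A.Nonempty := by
      rw [← Finset.card_pos, cA]
      exact hm
    obtain ⟨z, hz⟩ := hne
    obtain ⟨g1, g2, g3⟩ := mem_Ud.1 (hA hz)
    rw [← g3]
    refine dist_pos.2 fun h => ?_
    have := hinj z.1 z.2 (by omega) g2 h
    omega
  · unfold totA nA
    rw [sum_card, ← cA, ← card_sym hA']
    congr 1
    refine Finset.filter_congr fun z _ => ?_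
    exact colAB_one
  · unfold totB nB
    rw [sum_card, ← cB, ← card_sym hB']
    congr 1
    refine Finset.filter_congr fun z _ => ?_
    exact colAB_two hAB
  · intro i j _ _
    rw [dist_plane]
    constructor
    · intro h
      apply hdist
      apply hA
      rw [← colAB_one (B := B)]
      unfold colAB at h ⊢
      split_ifs at h ⊢ with g1 g2
      · rfl
      · exact absurd h (by decide)
      · exact absurd h (by decide)
    · intro h
      apply hdist
      apply hB
      rw [← colAB_two hAB]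
      unfold colAB at h ⊢
      split_ifs at h ⊢ with g1 g2
      · exact absurd h (by decide)
      · rfl
      · exact absurd h (by decide)

end RTwo
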