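import Pool.Agent.Helper50.RTwo.LEVEL

/-!
Project RTwo (MP_47dd75_co): row TEN.
-/

set_option autoImplicit false

namespace RTwo

namespace H50

open Finset

theorem tot_eq (n : ℕ) (c : Col) : tot n c = ∑ v ∈ range n, dgr n c v := by
  unfold tot totA totB dgr
  rw [Finset.sum_add_distrib]

theorem nA_succ (n : ℕ) (c : Col) (v : ℕ) :
    nA (n + 1) c v = nA n c v + if c v n = 1 then 1 else 0 := by
  unfold nA
  rw [Finset.range_add_one, Finset.filter_insert]
  split_ifs with h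
  · rw [Finset.card_insert_of_notMem (by simp)]
  · rfl

theorem nB_succ (n : ℕ) (c : Col) (v : ℕ) :
    nB (n + 1) c v = nB n c v + if c v n = 2 then 1 else 0 := by
  unfold nB
  rw [Finset.range_add_one, Finset.filter_insert]
  split_ifs with h
  · rw [Finset.card_insert_of_notMem (by simp)]
  · rfl

theorem nA_eq_sum (n : ℕ) (c : Col) (v : ℕ) :
    nA n c v = ∑ w ∈ range n, if c v w = 1 then 1 else 0 := by
  unfold nA
  rw [Finset.card_filter]

theorem nB_eq_sum (n : ℕ) (c : Col) (v : ℕ) :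
    nB n c v = ∑ w ∈ range n, if c v w = 2 then 1 else 0 := by
  unfold nB
  rw [Finset.card_filter]

theorem dgr_eq_sum {n : ℕ} {c : Col} (v : ℕ) (h : ∀ w, w < n → c v w ≤ 2) :
    dgr n c v = ∑ w ∈ range n, if c v w = 0 then 0 else 1 := by
  unfold dgr
  rw [nA_eq_sum, nB_eq_sum, ← Finset.sum_add_distrib]
  refine Finset.sum_congr rfl fun w hw => ?_
  have h1 := h w (mem_range.1 hw)
  have h2 : c v w = 0 ∨ c v w = 1 ∨ c v w = 2 := by omega
  rcases h2 with h2 | h2 | h2 <;> rw [h2] <;> decide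

theorem exists_last {n v : ℕ} (hv : v < n) : ∃ r, r < n ∧ dsg n r 0 (n - 1) = v := by
  refine ⟨(v + 1) % n, Nat.mod_lt _ (by omega), ?_⟩
  unfold dsg
  rw [if_pos rfl]
  by_cases h : v + 1 = n
  · rw [h, Nat.mod_self, Nat.add_zero, Nat.mod_eq_of_lt (by omega)]
    omega
  · rw [Nat.mod_eq_of_lt (show v + 1 < n by omega), show n - 1 + (v + 1) = v + n by omega,
      Nat.add_mod_right, Nat.mod_eq_of_lt hv]

theorem exists_min_dgr {n : ℕ} (hn : 0 < n) (c : Col) :
    ∃ v, v < n ∧ ∀ w, w < n → dgr n c v ≤ dgr n c w := by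
  obtain ⟨v, hv, h⟩ := Finset.exists_min_image (range n) (fun v => dgr n c v)
    ⟨0, mem_range.2 hn⟩
  exact ⟨v, mem_range.1 hv, fun w hw => h w (mem_range.2 hw)⟩

theorem mul_le_tot {n m : ℕ} {c : Col} (h : ∀ w, w < n → m ≤ dgr n c w) : n * m ≤ tot n c := by
  rw [tot_eq]
  have h1 := Finset.card_nsmul_le_sum (range n) (fun v => dgr n c v) m
    fun w hw => h w (mem_range.1 hw)
  rwa [Finset.card_range, smul_eq_mul] at h1

/-- two adjacent vertices of degree four -/
theorem exists_adj {c : Col} (h : SymC 10 c) (ht : tot 10 c = 44)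
    (h4 : ∀ v, v < 10 → 4 ≤ dgr 10 c v) :
    ∃ v w, v < 10 ∧ w < 10 ∧ dgr 10 c v = 4 ∧ dgr 10 c w = 4 ∧ c w v ≠ 0 := by
  by_contra hcon
  push Not at hcon
  set S := (range 10).filter (fun v => dgr 10 c v = 4) with hS
  set T := (range 10).filter (fun v => ¬ dgr 10 c v = 4) with hT
  have hle : ∀ v, v < 10 → ∀ w, w < 10 → c v w ≤ 2 := fun v hv w hw => (h v w hv hw).2.2
  have h1 : ∑ v ∈ S, dgr 10 c v + ∑ v ∈ T, dgr 10 c v = 44 := by
    rw [hS, hT, Finset.sum_filter_add_sum_filter_not, ← tot_eq, ht]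
  have h2 : ∑ v ∈ S, dgr 10 c v = 4 * S.card := by
    rw [Finset.sum_congr rfl fun v hv => (Finset.mem_filter.1 hv).2, Finset.sum_const,
      smul_eq_mul, mul_comm]
  have h3 : 5 * T.card ≤ ∑ v ∈ T, dgr 10 c v := by
    have := Finset.card_nsmul_le_sum T (fun v => dgr 10 c v) 5 (by
      intro v hv
      rw [hT, Finset.mem_filter] at hv
      have := h4 v (mem_range.1 hv.1)
      omega)
    rwa [smul_eq_mul, mul_comm] at this
  have h5 : S.card + T.card = 10 := by
    rw [hS, hT, Finset.card_filter_add_card_filter_not, Finset.card_range]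
  have h6 : ∑ v ∈ S, dgr 10 c v ≤ ∑ w ∈ T, dgr 10 c w := by
    calc ∑ v ∈ S, dgr 10 c v
        = ∑ v ∈ S, ∑ w ∈ T, (if c v w = 0 then 0 else 1) := by
          refine Finset.sum_congr rfl fun v hv => ?_
          rw [hS, Finset.mem_filter] at hv
          have hv' := mem_range.1 hv.1
          rw [dgr_eq_sum v (hle v hv'), ← Finset.sum_filter_add_sum_filter_not (range 10)
            (fun w => dgr 10 c w = 4), ← hT]
          rw [Finset.sum_eq_zero, zero_add]
          intro w hw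
          rw [Finset.mem_filter] at hw
          rw [if_pos]
          exact hcon w v (mem_range.1 hw.1) hv' hw.2 hv.2
      _ = ∑ w ∈ T, ∑ v ∈ S, (if c v w = 0 then 0 else 1) := Finset.sum_comm
      _ ≤ ∑ w ∈ T, dgr 10 c w := by
          refine Finset.sum_le_sum fun w hw => ?_
          rw [hT, Finset.mem_filter] at hw
          have hw' := mem_range.1 hw.1
          rw [dgr_eq_sum w (hle w hw')]
          have e1 : ∑ v ∈ S, (if c v w = 0 then 0 else 1) =
              ∑ v ∈ S, (if c w v = 0 then 0 else 1) := by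
            refine Finset.sum_congr rfl fun v hv => ?_
            rw [hS, Finset.mem_filter] at hv
            rw [(h v w (mem_range.1 hv.1) hw').1]
          rw [e1]
          exact Finset.sum_le_sum_of_subset (Finset.filter_subset _ _)
  omega

end H50

open H50

/-- row TEN -/
theorem st_TEN (hD : ST_DSG) (hC : ST_DCOL) (hE : ST_DEL) : ST_TEN := by
  intro c h ht
  have main : ∀ v0, v0 < 10 → (∀ w, w < 10 → dgr 10 c v0 ≤ dgr 10 c w) →
      ∃ r, r < 10 ∧ dsg 10 r 0 9 = v0 ∧ SymC 10 (dcol 10 r 0 c) ∧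
        (∀ v, v < 10 → dgr 10 (dcol 10 r 0 c) 9 ≤ dgr 10 (dcol 10 r 0 c) v) ∧
        tot 9 (dcol 10 r 0 c) + 2 * dgr 10 c v0 = 44 ∧
        (∀ v, v < 10 → dgr 10 (dcol 10 r 0 c) v = dgr 10 c (dsg 10 r 0 v)) := by
    intro v0 hv0 hmin
    obtain ⟨r, hr, hlast⟩ := exists_last hv0
    obtain ⟨hs, ha, hb, hd⟩ := hC 10 r 0 c (by omega) h
    have hlast' : dsg 10 r 0 9 = v0 := hlast
    refine ⟨r, hr, hlast', hs, ?_, ?_, hd⟩
    · intro w hw
      rw [hd 9 (by omega), hd w hw, hlast']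
      exact hmin _ ((hD 10 (by omega)).1 r 0 w hw)
    · obtain ⟨-, h1, -⟩ := hE 9 _ hs
      have h2 : tot 10 (dcol 10 r 0 c) = 44 := by
        rw [← ht]
        unfold tot
        rw [ha, hb]
      have h3 := hd 9 (by omega)
      rw [hlast'] at h3
      rw [← h3]
      have h4 : tot (9 + 1) (dcol 10 r 0 c) = 44 := h2
      have h5 : dgr (9 + 1) (dcol 10 r 0 c) 9 = dgr 10 (dcol 10 r 0 c) 9 := rfl
      rw [h4, h5] at h1
      omega
  obtain ⟨v0, hv0, hmin0⟩ := exists_min_dgr (n := 10) (by omega) c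
  by_cases h3 : dgr 10 c v0 ≤ 3
  · obtain ⟨r, hr, -, hs, hm, htt, -⟩ := main v0 hv0 hmin0
    refine ⟨r, hr, hm, by omega, ?_⟩
    obtain ⟨v, hv, hmin⟩ := exists_min_dgr (n := 9) (by omega) (dcol 10 r 0 c)
    have h5 := mul_le_tot hmin
    exact ⟨v, hv, by omega⟩
  · have h4 : ∀ v, v < 10 → 4 ≤ dgr 10 c v := fun v hv => by
      have := hmin0 v hv
      omega
    obtain ⟨v, w, hv, hw, hdv, hdw, hne⟩ := exists_adj h ht h4
    obtain ⟨r, hr, hlast, hs, hm, htt, hd⟩ := main v hv fun u hu => by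
      have := h4 u hu
      omega
    refine ⟨r, hr, hm, by omega, ?_⟩
    -- the place of `w`
    obtain ⟨-, -, -, hinv⟩ := hD 10 (by omega)
    obtain ⟨r', f', hr', h6⟩ := hinv r 0
    obtain ⟨h7, -⟩ := h6 w hw
    have h8 : dsg 10 r' f' w < 10 := (hD 10 (by omega)).1 r' f' w hw
    have h9 : dsg 10 r' f' w ≠ 9 := by
      intro h9
      rw [h9, hlast] at h7
      rw [h7] at hne
      exact hne (h w w hw hw).2.1
    set u := dsg 10 r' f' w with hu
    refine ⟨u, by omega, ?_⟩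
    have h10 : dgr 10 (dcol 10 r 0 c) u = 4 := by
      rw [hd u h8, h7, hdw]
    have h11 : dgr (9 + 1) (dcol 10 r 0 c) u = dgr 9 (dcol 10 r 0 c) u + 1 := by
      unfold dgr
      rw [nA_succ, nB_succ]
      have e1 : dcol 10 r 0 c u 9 = c w v := by
        show c (dsg 10 r 0 u) (dsg 10 r 0 9) = c w v
        rw [h7, hlast]
      have e2 := (h w v hw hv).2.2
      have e3 : c w v = 1 ∨ c w v = 2 := by omega
      rw [e1]
      rcases e3 with e3 | e3 <;> rw [e3] <;> simp <;> omega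
    have h12 : dgr (9 + 1) (dcol 10 r 0 c) u = dgr 10 (dcol 10 r 0 c) u := rfl
    omega

end RTwo
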